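import Pool.Agent.Lib.H25G.StMain

/-!
# Equidistribution in the quotient of the Sato-Tate group by the commutator subgroup of its identity component

Definitions (all in Pool.Agent.Lib.H25G.Defs, StD, HED, StMain): Om is the algebraic closure of the rationals; th ι ρ is ρ with values in GL_n(C) through
the embedding ι of the l-adic numbers; Zar is the Zariski closure in GL_n; Geom ρ S m says that ρ is continuous, unramified outside S and that for p outside S
the characteristic polynomial of Frobenius is rational with roots of absolute value 1 which become algebraic integers when multiplied by p^m; IsST ι ρ K says that K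
is a Sato-Tate group of ρ; STClassG ι ρ p y says that y is conjugate to the semisimple part of the image of a Frobenius element at p.
-/

set_option autoImplicit false

open Filter Topology MeasureTheory H25G

namespace Pool.Agent.Results.MP_32ceeb_nt.AbelianQuotient

/-- Let K be a Sato-Tate group of ρ, K1 a subgroup of K of finite index (for instance the identity component) and f a continuous class function on K which is invariant
under the commutators of K1. Then the average of f over the classes x_p, p at most N, tends to the integral of f with respect to the normalised Haar measure. -/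
theorem result {l : ℕ} [Fact l.Prime] {n : ℕ} {ρ : Gal(Om/ℚ) →* GL (Fin n) ℚ_[l]} {S : Finset ℕ} {m : ℕ} (hρ : Geom ρ S m) (ι : ℚ_[l] →+* ℂ)
    (K : Subgroup (GL (Fin n) ℂ)) (hK : IsST ι ρ K) [MeasurableSpace K] [BorelSpace K] (μ : Measure K) [μ.IsHaarMeasure] [IsProbabilityMeasure μ]
    (K1 : Subgroup K) [K1.FiniteIndex] (f : K → ℂ) (hf : Continuous f) (hcl : ∀ a k, f (a * k * a⁻¹) = f k)
    (hinv : ∀ k, ∀ a ∈ K1, ∀ b ∈ K1, f (k * (a * b * a⁻¹ * b⁻¹)) = f k)
    (x : ℕ → K) (hx : ∀ p, p.Prime → p ∉ S → STClassG ι ρ p (x p : GL (Fin n) ℂ)) :
    Tendsto (fun N : ℕ => (∑ p ∈ (Finset.range (N + 1)).filter (fun p => p.Prime ∧ p ∉ S), f (x p)) /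
      (((Finset.range (N + 1)).filter (fun p => p.Prime ∧ p ∉ S)).card : ℂ)) atTop (𝓝 (∫ k : K, f k ∂μ)) :=
  st_main hρ ι K hK μ K1 f hf hcl hinv x hx

end Pool.Agent.Results.MP_32ceeb_nt.AbelianQuotient
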